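import Pool.Agent.H93.PF.TargetsB

/-!
# B0F: the tiles in a gap of `D 0`
-/

set_option autoImplicit false

open MeasureTheory Filter Topology Finset Pool.Agent.H93.PF

namespace Pool.Agent.H34.PF

theorem pf_B0F (hLNB : T_LNB) (_hTAU : T_TAU) : T_B0F := by
  intro Y _ T L D hMk y _ a r ha hNx
  have hr0 : 0 < r := hNx.1
  have har : zp T (a + r) y ∈ D 0 := hNx.2.1
  have hL : L ^ 2 ≤ r := by
    by_contra hlt
    push Not at hlt
    have h1 := hMk.ret0 (zp T a y) ha r hr0 hlt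
    rw [← zp_add, add_comm] at h1
    exact h1 har
  refine ⟨hL, ?_⟩
  intro x hax hxr
  obtain ⟨h1, h2⟩ := (hLNB Y T (D 0) y).2.2.2 a r ha hNx x hax hxr
  have h3 : la T (D 0) (zp T x y) + na T (D 0) (zp T x y) = r := by omega
  have h4 : x ∈ ob T (Bk T L D 0) y ↔ ∃ i, i < nt L (la T (D 0) (zp T x y) +
      na T (D 0) (zp T x y)) ∧ la T (D 0) (zp T x y) =
      tau L (la T (D 0) (zp T x y) + na T (D 0) (zp T x y)) i := Iff.rfl
  rw [h4, h3]
  constructor
  · rintro ⟨i, hi, h5⟩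
    exact ⟨i, hi, by omega⟩
  · rintro ⟨i, hi, h5⟩
    exact ⟨i, hi, by omega⟩

end Pool.Agent.H34.PF
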