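import Pool.Agent.H93.PF.TargetsD

/-!
# BIX: a gap of `D (j + 1)` contains many points of `B (j + 1)`
-/

set_option autoImplicit false

open MeasureTheory Filter Topology Finset Pool.Agent.H93.PF

namespace Pool.Agent.H34.PF

open Classical in
theorem cnt_eq (B : Set ℤ) (A s : ℤ) (a : ℕ) (h : (a : ℤ) = s - A) :
    ((range a).filter fun j : ℕ => s - ((j : ℤ) + 1) ∈ B).card =
      ((Ico A s).filter fun t => t ∈ B).card := by
  apply card_bij (fun (j : ℕ) _ => s - ((j : ℤ) + 1))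
  · intro j hj
    rw [mem_filter, mem_range] at hj
    rw [mem_filter, mem_Ico]
    exact ⟨⟨by omega, by omega⟩, hj.2⟩
  · intro j _ j' _ hjj
    omega
  · intro t ht
    rw [mem_filter, mem_Ico] at ht
    refine ⟨(s - 1 - t).toNat, ?_, by omega⟩
    rw [mem_filter, mem_range]
    have h1 : s - (((s - 1 - t).toNat : ℤ) + 1) = t := by omega
    rw [h1]
    exact ⟨by omega, ht.2⟩

open Classical in
theorem mem_cr (n : ℕ) (x : ℤ) : x ∈ (do
    let a ← range n
    pure (a : ℤ) : Finset ℤ) ↔ ∃ a, a < n ∧ (a : ℤ) = x := by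
  rw [bind_pure_comp, Finset.fmap_def]
  refine (@Finset.mem_image _ _ (fun a b => Classical.propDecidable (a = b)) _ _ _).trans ?_
  simp only [mem_range]

open Classical in
theorem card_cr (n : ℕ) (p : ℤ → Prop) : ((do
    let a ← range n
    pure (a : ℤ) : Finset ℤ).filter p).card = ((range n).filter fun j : ℕ => p (j : ℤ)).card := by
  have h1 : ((do
    let a ← range n
    pure (a : ℤ) : Finset ℤ).filter p) =
      ((range n).filter fun j : ℕ => p (j : ℤ)).image fun j : ℕ => (j : ℤ) := by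
    ext x
    rw [mem_filter, mem_cr, mem_image]
    constructor
    · rintro ⟨⟨a, ha, rfl⟩, hp⟩
      exact ⟨a, mem_filter.mpr ⟨mem_range.mpr ha, hp⟩, rfl⟩
    · rintro ⟨a, ha, rfl⟩
      rw [mem_filter, mem_range] at ha
      exact ⟨⟨a, ha.1, rfl⟩, ha.2⟩
  rw [h1]
  exact card_image_of_injective _ Nat.cast_injective

open Classical in
theorem cnt_next (B : Set ℤ) (A s : ℤ) (g : ℕ) (hA : A ≤ s) (hs : s ∈ B) (hN : Nx B s g) :
    ((Ico A (s + g)).filter fun t => t ∈ B).card =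
      ((Ico A s).filter fun t => t ∈ B).card + 1 := by
  have h1 : ((Ico A (s + g)).filter fun t => t ∈ B) =
      insert s ((Ico A s).filter fun t => t ∈ B) := by
    ext t
    rw [mem_insert, mem_filter, mem_filter, mem_Ico, mem_Ico]
    have hg := hN.1
    constructor
    · rintro ⟨⟨h2, h3⟩, h4⟩
      rcases lt_trichotomy t s with h5 | h5 | h5
      · right
        exact ⟨⟨h2, h5⟩, h4⟩
      · left
        exact h5
      · exact absurd h4 (hN.2.2 t h5 h3)
    · rintro (rfl | ⟨⟨h2, h3⟩, h4⟩)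
      · exact ⟨⟨hA, by omega⟩, hs⟩
      · exact ⟨⟨h2, by omega⟩, h4⟩
  rw [h1, card_insert_of_notMem]
  rw [mem_filter, mem_Ico]
  rintro ⟨⟨_, h2⟩, _⟩
  omega

open Classical in
theorem pf_BIX (hLNB : T_LNB) (hBKF : T_BKF) : T_BIX := by
  intro Y _ T L D hMk y hRc j A r hA hNx
  obtain ⟨hsub, _, hnext, _⟩ := hBKF Y T L D hMk y hRc
  have hla := (hLNB Y T (D (j + 1)) y).2.2.2 A r hA hNx
  have key : ∀ i : ℕ, i * gg L (j + 1) < r → ∃ s ∈ ob T (Bk T L D (j + 1)) y, A ≤ s ∧
      s ≤ A + i * gg L (j + 1) ∧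
      ((Ico A s).filter fun t => t ∈ ob T (Bk T L D (j + 1)) y).card = i := by
    intro i
    induction i with
    | zero =>
      intro _
      refine ⟨A, hsub (j + 1) hA, le_rfl, by simp, ?_⟩
      simp
    | succ i ih =>
      intro hi
      have h1 : (i + 1) * gg L (j + 1) = i * gg L (j + 1) + gg L (j + 1) := by ring
      obtain ⟨s, hs, h2, h3, h4⟩ := ih (by omega)
      obtain ⟨g, _, hg2, hg3⟩ := hnext (j + 1) s hs
      refine ⟨s + g, hg3.2.1, by omega, ?_, ?_⟩
      · push_cast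
        have h5 : ((i : ℤ) + 1) * (gg L (j + 1) : ℤ) =
          (i : ℤ) * (gg L (j + 1) : ℤ) + (gg L (j + 1) : ℤ) := by ring
        omega
      · rw [cnt_next _ A s g h2 hs hg3, h4]
  intro i hi
  obtain ⟨s, hs, h2, h3, h4⟩ := key i hi
  have hsr : s < A + r := by
    have h5 : ((i * gg L (j + 1) : ℕ) : ℤ) < (r : ℤ) := by exact_mod_cast hi
    push_cast at h5
    omega
  refine ⟨s, hs, h2, hsr, ?_⟩
  have h5 := (hla s h2 hsr).1
  unfold bi
  have h6 := cnt_eq (ob T (Bk T L D (j + 1)) y) A s (la T (D (j + 1)) (zp T s y)) h5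
  rw [card_cr (la T (D (j + 1)) (zp T s y))
    (fun t : ℤ => zp T (-(t + 1)) (zp T s y) ∈ Bk T L D (j + 1)), ← h4, ← h6]
  have h8 : ∀ t ∈ range (la T (D (j + 1)) (zp T s y)),
      (zp T (-((t : ℤ) + 1)) (zp T s y) ∈ Bk T L D (j + 1) ↔
        s - ((t : ℤ) + 1) ∈ ob T (Bk T L D (j + 1)) y) := by
    intro t _
    rw [← zp_add, mem_ob]
    have h7 : -((t : ℤ) + 1) + s = s - ((t : ℤ) + 1) := by ring
    rw [h7]
  rw [filter_congr h8]

end Pool.Agent.H34.PF
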