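import Pool.Agent.H93.PF.TargetsC

/-!
# HNB: bounds for the entropies
-/

set_option autoImplicit false

open MeasureTheory Filter Topology Finset Pool.Agent.H93.PF

namespace Pool.Agent.H34.PF

theorem nml_le (p N : ℝ) (hp : 0 ≤ p) (hN : 0 < N) :
    Real.negMulLog p ≤ 1 / N - p + p * Real.log N := by
  rcases eq_or_lt_of_le hp with h0 | h0
  · rw [← h0, Real.negMulLog_zero]
    have : 0 < 1 / N := by positivity
    linarith
  · have h1 := Real.log_le_sub_one_of_pos (show 0 < 1 / (p * N) by positivity)
    have h2 : Real.log (1 / (p * N)) = -Real.log p - Real.log N := by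
      rw [one_div, Real.log_inv, Real.log_mul h0.ne' hN.ne']
      ring
    rw [h2] at h1
    have h3 : p * (1 / (p * N) - 1) = 1 / N - p := by
      field_simp
    have h4 := mul_le_mul_of_nonneg_left h1 hp
    rw [h3] at h4
    unfold Real.negMulLog
    linarith

theorem sum_cyl {Y : Type} [MeasurableSpace Y] (ν : Measure Y) [IsProbabilityMeasure ν]
    (T : Y ≃ᵐ Y) (K : ℕ) (P : Y → Fin K) (hP : Measurable P) (n : ℕ) :
    ∑ w : Fin n → Fin K, ν.real (cyl T P w) = 1 := by
  obtain ⟨f, hf⟩ : ∃ f : Y → (Fin n → Fin K), f = fun y (i : Fin n) => P (T^[(i : ℕ)] y) := ⟨_, rfl⟩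
  have hfm : Measurable f := by
    rw [hf]
    exact measurable_pi_iff.mpr fun i => hP.comp (T.measurable.iterate _)
  have h1 : ∀ w : Fin n → Fin K, cyl T P w = f ⁻¹' {w} := by
    intro w
    ext y
    rw [Set.mem_preimage, Set.mem_singleton_iff, hf]
    exact ⟨fun h => funext h, fun h i => congrFun h i⟩
  simp_rw [h1]
  rw [sum_measureReal_preimage_singleton _ (fun w _ => hfm (measurableSet_singleton w))]
  simp

theorem pf_HNB : T_HNB := by
  intro Y _ ν _ T K P hP
  have hne : Nonempty Y := by
    by_contra h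
    rw [not_nonempty_iff] at h
    have h1 : ν Set.univ = 1 := measure_univ
    rw [Set.eq_empty_of_isEmpty Set.univ, measure_empty] at h1
    exact zero_ne_one h1
  obtain ⟨y₀⟩ := hne
  have hK : 1 ≤ K := by
    have := (P y₀).isLt
    omega
  have hKr : (1 : ℝ) ≤ K := by exact_mod_cast hK
  have hlog : 0 ≤ Real.log K := Real.log_nonneg hKr
  have h1 : ∀ n : ℕ, 0 ≤ Hn ν T P n ∧ Hn ν T P n ≤ n * Real.log K := by
    intro n
    constructor
    · exact sum_nonneg fun w _ => Real.negMulLog_nonneg measureReal_nonneg measureReal_le_one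
    · have hN : (0 : ℝ) < (K : ℝ) ^ n := by positivity
      calc Hn ν T P n ≤ ∑ w : Fin n → Fin K, (1 / (K : ℝ) ^ n - ν.real (cyl T P w) +
            ν.real (cyl T P w) * Real.log ((K : ℝ) ^ n)) :=
            sum_le_sum fun w _ => nml_le _ _ measureReal_nonneg hN
        _ = n * Real.log K := by
            rw [sum_add_distrib, sum_sub_distrib, ← sum_mul, sum_cyl ν T K P hP n, sum_const,
              card_univ, Fintype.card_fun, Fintype.card_fin, Fintype.card_fin, Real.log_pow,
              nsmul_eq_mul]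
            push_cast
            field_simp
            ring
  have h2 : ∀ n : ℕ, 0 ≤ Hn ν T P n / n := fun n => div_nonneg (h1 n).1 (by positivity)
  have h3 : ∀ n : ℕ, Hn ν T P n / n ≤ Real.log K := by
    intro n
    rcases Nat.eq_zero_or_pos n with rfl | hn
    · simpa using hlog
    · rw [div_le_iff₀ (by exact_mod_cast hn), mul_comm]
      exact (h1 n).2
  have hb : IsBoundedUnder (· ≤ ·) atTop (fun n : ℕ => Hn ν T P n / n) :=
    isBoundedUnder_of ⟨Real.log K, h3⟩
  refine ⟨h1, ?_, hb, isBoundedUnder_of ⟨0, h2⟩⟩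
  unfold entP
  exact le_limsup_of_frequently_le (Eventually.of_forall h2).frequently hb

end Pool.Agent.H34.PF
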