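import Pool.Agent.H93.PF.TargetsB

/-!
# M1M: the messages are measurable
-/

set_option autoImplicit false

open MeasureTheory Filter Topology Finset Pool.Agent.H93.PF

namespace Pool.Agent.H34.PF

open Classical in
/-- the message as a function of the times `la`, `na` and of the point -/
noncomputable def Gm {Y : Type} [MeasurableSpace Y] (T : Y ≃ᵐ Y) {K : ℕ} (L : ℕ) (P : Y → Fin K)
    (S : Set Y) (msg : (r : ℕ) → (Fin r → Fin K) → ℕ → ℕ) (q : (ℕ × ℕ) × Y) : ℕ :=
  (if q.2 ∈ S then 1 else 0) + 2 * msg (q.1.1 + q.1.2)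
    (fun i : Fin (q.1.1 + q.1.2) => P (zp T (((i : ℕ) : ℤ) - (q.1.1 : ℤ)) q.2))
    (ti L (q.1.1 + q.1.2) q.1.1)

theorem pf_M1M (hMES : T_MES) : T_M1M := by
  intro Y _ T K L P S msg hP hS
  have hG : Measurable (Gm T L P S msg) := by
    apply measurable_from_prod_countable_right
    rintro ⟨a, n⟩
    unfold Gm
    apply Measurable.add
    · exact Measurable.ite hS measurable_const measurable_const
    · apply Measurable.const_mul
      have h1 : Measurable fun y : Y => fun i : Fin (a + n) =>
          P (zp T (((i : ℕ) : ℤ) - (a : ℤ)) y) :=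
        measurable_pi_iff.mpr fun i => hP.comp (measurable_zp T _)
      exact (measurable_of_countable fun w : Fin (a + n) → Fin K =>
        msg (a + n) w (ti L (a + n) a)).comp h1
  have h1 := hMES Y T
  have h2 : Measurable fun y : Y => ((la T S y, na T S y), y) :=
    ((h1.1 S hS).1.prodMk (h1.1 S hS).2.1).prodMk measurable_id
  exact hG.comp h2

end Pool.Agent.H34.PF
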