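import Pool.Agent.H93.PF.TargetsB

/-!
# MAR: sets without early returns
-/

set_option autoImplicit false

open MeasureTheory Filter Topology Finset Pool.Agent.H93.PF

namespace Pool.Agent.H34.PF

/-- the interval `[k/(n+1), (k+1)/(n+1))` -/
def JJ (n : ℕ) (k : ℤ) : Set ℝ := {x | (k : ℝ) ≤ x * ((n : ℝ) + 1) ∧ x * ((n : ℝ) + 1) < k + 1}

theorem JJ_meas (n : ℕ) (k : ℤ) : MeasurableSet (JJ n k) := by
  unfold JJ
  have h : Measurable fun x : ℝ => x * ((n : ℝ) + 1) := by fun_prop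
  exact (measurableSet_le measurable_const h).inter (measurableSet_lt h measurable_const)

theorem JJ_lt {n : ℕ} {k : ℤ} {x y : ℝ} (hx : x ∈ JJ n k) (hy : y ∈ JJ n k) :
    |y - x| < 1 / ((n : ℝ) + 1) := by
  have hn : (0 : ℝ) < (n : ℝ) + 1 := by positivity
  obtain ⟨h1, h2⟩ := hx
  obtain ⟨h3, h4⟩ := hy
  rw [lt_div_iff₀ hn]
  have h5 : |y - x| * ((n : ℝ) + 1) = |(y - x) * ((n : ℝ) + 1)| := by
    rw [abs_mul, abs_of_pos hn]
  rw [h5, abs_lt]
  constructor <;> linarith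

theorem pf_MAR : T_MAR := by
  intro Y _ _ ν _ T E H hap hE hνE
  obtain ⟨f, hf⟩ := exists_measurableEmbedding_real Y
  obtain ⟨A, hA⟩ : ∃ A : ℕ × ℤ → Set Y, ∀ q, A q = {y | y ∈ E ∧ f y ∈ JJ q.1 q.2 ∧
      ∀ i ∈ range H, 0 < i → f (zp T (i : ℤ) y) ∉ JJ q.1 q.2} := ⟨_, fun _ => rfl⟩
  have hAm : ∀ q, MeasurableSet (A q) := by
    intro q
    rw [hA]
    have h1 : {y | y ∈ E ∧ f y ∈ JJ q.1 q.2 ∧
        ∀ i ∈ range H, 0 < i → f (zp T (i : ℤ) y) ∉ JJ q.1 q.2} = E ∩ (f ⁻¹' JJ q.1 q.2 ∩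
        ⋂ i ∈ range H, ⋂ (_ : 0 < i), (fun y => f (zp T (i : ℤ) y)) ⁻¹' (JJ q.1 q.2)ᶜ) := by
      ext y
      simp only [Set.mem_ofPred_eq, Set.mem_inter_iff, Set.mem_preimage, Set.mem_iInter,
        Set.mem_compl_iff]
    rw [h1]
    apply hE.inter
    apply (hf.measurable (JJ_meas _ _)).inter
    apply MeasurableSet.biInter (Set.to_countable _)
    intro i _
    apply MeasurableSet.iInter
    intro _
    exact (hf.measurable.comp (measurable_zp T _)) (JJ_meas _ _).compl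
  have hcov : ∀ᵐ y ∂ν, y ∈ E → y ∈ ⋃ q, A q := by
    filter_upwards [hap] with y hy hyE
    have h1 : ∀ᶠ n : ℕ in atTop, ∀ i ∈ range H, 0 < i →
        1 / ((n : ℝ) + 1) < |f (zp T (i : ℤ) y) - f y| := by
      rw [eventually_all_finset]
      intro i _
      by_cases hi : 0 < i
      · have h2 : 0 < |f (zp T (i : ℤ) y) - f y| := by
          rw [abs_pos, sub_ne_zero]
          intro h3
          have h4 := hf.injective h3
          rw [zp_natCast] at h4
          exact hy i hi h4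
        have h3 : Tendsto (fun n : ℕ => 1 / ((n : ℝ) + 1)) atTop (𝓝 0) :=
          tendsto_one_div_add_atTop_nhds_zero_nat
        filter_upwards [h3.eventually (gt_mem_nhds h2)] with n hn _
        exact hn
      · exact Eventually.of_forall fun n h => absurd h hi
    obtain ⟨n, hn⟩ := h1.exists
    rw [Set.mem_iUnion]
    refine ⟨(n, ⌊f y * ((n : ℝ) + 1)⌋), ?_⟩
    have h2 : f y ∈ JJ n ⌊f y * ((n : ℝ) + 1)⌋ := ⟨Int.floor_le _, Int.lt_floor_add_one _⟩
    rw [hA]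
    refine ⟨hyE, h2, ?_⟩
    intro i hi hi0 h3
    exact absurd (JJ_lt h2 h3) (not_lt.mpr (hn i hi hi0).le)
  have hex : ∃ q, 0 < ν (A q) := by
    by_contra hcon
    push Not at hcon
    have h1 : ν (⋃ q, A q) = 0 := measure_iUnion_null fun q => nonpos_iff_eq_zero.mp (hcon q)
    have h2 : ν E ≤ ν (⋃ q, A q) := measure_mono_ae hcov
    rw [h1] at h2
    exact absurd hνE (not_lt.mpr h2)
  obtain ⟨q, hq⟩ := hex
  refine ⟨A q, ?_, hAm q, hq, ?_⟩
  · intro y hy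
    rw [hA] at hy
    exact hy.1
  · intro y hy i hi0 hiH h1
    rw [hA] at hy h1
    exact hy.2.2 i (mem_range.mpr hiH) hi0 h1.2.1

end Pool.Agent.H34.PF
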