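import Pool.Agent.H93.PF.TargetsD

/-!
# ME2: measurability
-/

set_option autoImplicit false

open MeasureTheory Filter Topology Finset Pool.Agent.H93.PF

namespace Pool.Agent.H34.PF

open Classical in
theorem pf_ME2 (hMES : T_MES) : T_ME2 := by
  intro Y _ T
  obtain ⟨h1, h2⟩ := hMES Y T
  refine ⟨?_, ?_⟩
  · intro S S' hS hS'
    constructor
    · have hG : Measurable fun q : ℕ × Y =>
          ((range q.1).filter fun j => zp T (-((j : ℤ) + 1)) q.2 ∈ S).card := by
        apply measurable_from_prod_countable_right
        intro a
        simp only [card_filter]
        apply Finset.measurable_fun_sum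
        intro j _
        exact Measurable.ite (measurable_zp T _ hS) measurable_const measurable_const
      exact hG.comp ((h1 S' hS').1.prodMk measurable_id)
    · have hG : Measurable fun q : ℕ × Y => zp T (-(q.1 : ℤ)) q.2 := by
        apply measurable_from_prod_countable_right
        intro a
        exact measurable_zp T (-(a : ℤ))
      exact hG.comp ((h1 S hS).2.2.prodMk measurable_id)
  · intro L D hD
    have hB := (h2 L D hD).1
    apply measurable_to_countable'
    intro n
    have h3 : lv T L D ⁻¹' {n} = ((Bk T L D (n + 1))ᶜ ∩ ⋂ k ∈ range n, Bk T L D (k + 1)) ∪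
        (if n = 0 then ⋂ k : ℕ, Bk T L D (k + 1) else ∅) := by
      ext y
      simp only [Set.mem_preimage, Set.mem_singleton_iff, Set.mem_union, Set.mem_inter_iff,
        Set.mem_compl_iff, Set.mem_iInter, mem_range]
      unfold lv
      constructor
      · intro h
        by_cases hne : {k | y ∉ Bk T L D (k + 1)}.Nonempty
        · left
          have h4 := Nat.sInf_mem hne
          rw [h] at h4
          refine ⟨h4, ?_⟩
          intro k hk
          by_contra hcon
          have h5 : sInf {k | y ∉ Bk T L D (k + 1)} ≤ k := Nat.sInf_le hcon
          omega
        · right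
          have h4 : ∀ k, y ∈ Bk T L D (k + 1) := by
            intro k
            by_contra hcon
            exact hne ⟨k, hcon⟩
          rw [Set.not_nonempty_iff_eq_empty] at hne
          rw [hne, Nat.sInf_empty] at h
          rw [if_pos h.symm]
          exact Set.mem_iInter.mpr h4
      · rintro (⟨h4, h5⟩ | h4)
        · apply le_antisymm (Nat.sInf_le h4)
          have hne : {k | y ∉ Bk T L D (k + 1)}.Nonempty := ⟨n, h4⟩
          have h6 := Nat.sInf_mem hne
          by_contra hcon
          push Not at hcon
          exact h6 (h5 _ hcon)
        · by_cases hn : n = 0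
          · rw [if_pos hn] at h4
            have h5 := Set.mem_iInter.mp h4
            have h6 : {k | y ∉ Bk T L D (k + 1)} = ∅ := by
              ext k
              exact ⟨fun h => absurd (h5 k) h, fun h => h.elim⟩
            rw [h6, Nat.sInf_empty, hn]
          · rw [if_neg hn] at h4
            exact h4.elim
    rw [h3]
    apply MeasurableSet.union
    · apply (hB (n + 1)).compl.inter
      exact MeasurableSet.biInter (Set.to_countable _) fun k _ => hB (k + 1)
    · split_ifs
      · exact MeasurableSet.iInter fun k => hB (k + 1)
      · exact MeasurableSet.empty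

end Pool.Agent.H34.PF
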