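import Pool.Agent.H93.PF.TargetsB

/-!
# MEX: separators
-/

set_option autoImplicit false

open MeasureTheory Filter Topology Finset Pool.Agent.H93.PF

namespace Pool.Agent.H34.PF

/-- the first `s` letters -/
def pre {A : Type} {R : ℕ} (s : ℕ) (h : s ≤ R) (w : Fin R → A) : Fin s → A :=
  fun j => w ⟨j.val, lt_of_lt_of_le j.isLt h⟩

theorem pre_Gd {A : Type} {R : ℕ} (m : ℕ → ℕ) (s : ℕ) (h : s ≤ R) (w : Fin R → A)
    (hw : Gd m w) : Gd m (pre s h w) := by
  intro q i hq him hper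
  apply hw q i hq (by omega)
  intro j hj hij hjm
  have h1 : j + q < s := by omega
  exact hper j h1 hij hjm

theorem pre_inj {A : Type} {R : ℕ} (s : ℕ) (hs : 0 < s) (h : s ≤ R) (w w' : Fin R → A)
    (hw : Per w s 0 R) (hw' : Per w' s 0 R) (he : pre s h w = pre s h w') : w = w' := by
  have key : ∀ j : ℕ, ∀ hj : j < R, w ⟨j, hj⟩ = w' ⟨j, hj⟩ := by
    intro j
    induction j using Nat.strong_induction_on with
    | _ j ih =>
      intro hj
      by_cases hjs : j < s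
      · exact congrFun he ⟨j, hjs⟩
      · obtain ⟨i, rfl⟩ : ∃ i, j = i + s := ⟨j - s, by omega⟩
        rw [hw i hj (by omega) (by omega), hw' i hj (by omega) (by omega)]
        exact ih i (by omega) (by omega)
  funext j
  exact key j.val j.isLt

open Classical in
theorem card_per {d R : ℕ} (m : ℕ → ℕ) (s : ℕ) (hs : 0 < s) (h : s ≤ R) :
    ((FF d m R).filter fun w => Per w s 0 R).card ≤ (FF d m s).card := by
  apply card_le_card_of_injOn (pre s h)
  · intro w hw
    have h1 := mem_filter.mp (mem_coe.mp hw)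
    have h2 := (mem_filter.mp h1.1).2
    exact mem_coe.mpr (mem_filter.mpr ⟨mem_univ _, pre_Gd m s h w h2⟩)
  · intro w hw w' hw' he
    have h1 := (mem_filter.mp (mem_coe.mp hw)).2
    have h2 := (mem_filter.mp (mem_coe.mp hw')).2
    exact pre_inj s hs h w w' h1 h2 he

open Classical in
theorem pf_MEX (hGRO : T_GRO) (hGBD : T_GBD) : T_MEX := by
  intro d m θ κ hT
  obtain ⟨_, hgr, hone⟩ := hGRO d m θ κ hT
  have hgb := hGBD d m θ κ hT
  have hθ0 : 0 < θ := by linarith [hT.th]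
  have hlim : Tendsto (fun n : ℕ => 2 * ((n : ℝ) * (2 / 3 : ℝ) ^ n)) atTop (𝓝 0) := by
    have := (tendsto_self_mul_const_pow_of_lt_one (r := (2 / 3 : ℝ)) (by norm_num)
      (by norm_num)).const_mul 2
    rwa [mul_zero] at this
  obtain ⟨N₀, hN₀⟩ := eventually_atTop.mp (hlim.eventually (gt_mem_nhds hT.ka))
  refine ⟨2 * N₀, ?_⟩
  intro R hR
  by_contra hcon
  push Not at hcon
  obtain ⟨n, hn⟩ : ∃ n, n = (R + 1) / 2 := ⟨_, rfl⟩
  have haR : (0 : ℝ) < ((FF d m R).card : ℝ) := by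
    have := hone R
    exact_mod_cast this
  have h1 : (GG d m R) ⊆ (Icc 1 (R / 2)).biUnion fun s =>
      (FF d m R).filter fun w => Per w s 0 R := by
    intro M hM
    have hGe : Ge m M := (mem_filter.mp hM).2
    obtain ⟨s, hs0, hs2, hper⟩ := hcon M hGe
    rw [mem_biUnion]
    refine ⟨s, mem_Icc.mpr ⟨hs0, by omega⟩, ?_⟩
    exact mem_filter.mpr ⟨mem_filter.mpr ⟨mem_univ _, hGe.1⟩, hper⟩
  have h2 : ((GG d m R).card : ℝ) ≤ ∑ s ∈ Icc 1 (R / 2), ((FF d m s).card : ℝ) := by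
    have h3 : (GG d m R).card ≤ ∑ s ∈ Icc 1 (R / 2), (FF d m s).card := by
      refine (card_le_card h1).trans (card_biUnion_le.trans ?_)
      refine sum_le_sum fun s hs => ?_
      rw [mem_Icc] at hs
      exact card_per m s (by omega) (by omega)
    exact_mod_cast h3
  have h4 : ∀ s ∈ Icc 1 (R / 2), ((FF d m s).card : ℝ) ≤
      (2 / 3 : ℝ) ^ n * ((FF d m R).card : ℝ) := by
    intro s hs
    rw [mem_Icc] at hs
    have h5 := hgr s (R - s)
    rw [show s + (R - s) = R by omega] at h5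
    have h6 : (3 / 2 : ℝ) ^ n ≤ θ ^ (R - s) := by
      calc (3 / 2 : ℝ) ^ n ≤ (3 / 2 : ℝ) ^ (R - s) :=
            pow_le_pow_right₀ (by norm_num) (by omega)
        _ ≤ θ ^ (R - s) := pow_le_pow_left₀ (by norm_num) hT.th _
    have h7 : (3 / 2 : ℝ) ^ n * ((FF d m s).card : ℝ) ≤ ((FF d m R).card : ℝ) :=
      (mul_le_mul_of_nonneg_right h6 (by positivity)).trans h5
    have h8 : (2 / 3 : ℝ) ^ n * (3 / 2 : ℝ) ^ n = 1 := by
      rw [← mul_pow]
      norm_num
    calc ((FF d m s).card : ℝ) = (2 / 3 : ℝ) ^ n * ((3 / 2 : ℝ) ^ n * ((FF d m s).card : ℝ)) := by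
          rw [← mul_assoc, h8, one_mul]
      _ ≤ (2 / 3 : ℝ) ^ n * ((FF d m R).card : ℝ) := mul_le_mul_of_nonneg_left h7 (by positivity)
  have h9 := h2.trans (sum_le_sum h4)
  rw [sum_const, Nat.card_Icc, Nat.add_sub_cancel, nsmul_eq_mul] at h9
  have h10 := (hgb R).trans h9
  have h11 : ((R / 2 : ℕ) : ℝ) ≤ 2 * n := by
    have : R / 2 ≤ 2 * n := by omega
    exact_mod_cast this
  have h12 := hN₀ n (by omega)
  have h13 : κ * ((FF d m R).card : ℝ) ≤
      2 * n * ((2 / 3 : ℝ) ^ n * ((FF d m R).card : ℝ)) :=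
    h10.trans (mul_le_mul_of_nonneg_right h11 (by positivity))
  nlinarith [h13, h12, haR]

end Pool.Agent.H34.PF
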