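import Pool.Agent.H93.PF.TargetsB

/-!
# OCC: the separator occurs only at the starts of the tiles
-/

set_option autoImplicit false

open MeasureTheory Filter Topology Finset Pool.Agent.H93.PF

namespace Pool.Agent.H34.PF

open Classical in
theorem pf_OCC : T_OCC := by
  intro d m c B z hT p hp
  obtain ⟨s, hs, hsp, hlast⟩ := exists_last hT.below p
  rcases eq_or_lt_of_le hsp with h0 | hlt
  · rwa [h0] at hs
  exfalso
  obtain ⟨g, hg, hNx⟩ := hT.next s hs
  have hRL := c.RL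
  have hR0 := c.R0
  have hps : p < s + g := by
    by_contra hc
    have h1 := hlast (s + g) hNx.2.1 (by omega)
    have h2 := hNx.1
    omega
  have hm1 := hT.mark s hs
  have hm2 := hT.mark (s + g) hNx.2.1
  by_cases h1 : 2 * (p - s) ≤ c.R
  · obtain ⟨t, ht⟩ : ∃ t : ℕ, (t : ℤ) = p - s := ⟨(p - s).toNat, by omega⟩
    apply c.Mp t (by omega) (by omega)
    intro j hj _ _
    have h2 := hm1 ⟨j + t, hj⟩
    have h3 := hp ⟨j, by omega⟩
    rw [← h2, ← h3]
    congr 1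
    push_cast
    omega
  by_cases h2 : 2 * (s + g - p) ≤ c.R
  · obtain ⟨t, ht⟩ : ∃ t : ℕ, (t : ℤ) = s + g - p := ⟨(s + g - p).toNat, by omega⟩
    apply c.Mp t (by omega) (by omega)
    intro j hj _ _
    have h3 := hp ⟨j + t, hj⟩
    have h4 := hm2 ⟨j, by omega⟩
    rw [← h3, ← h4]
    congr 1
    push_cast
    omega
  have hH := hT.cont s hs g hNx
  unfold HH at hH
  have hH2 := (mem_filter.mp hH).2.2
  obtain ⟨ρ, hρ⟩ : ∃ ρ : ℕ, ρ = (c.R + 1) / 2 := ⟨_, rfl⟩
  rw [← hρ] at hH2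
  by_cases h3 : s + c.R ≤ p
  · obtain ⟨i, hi⟩ : ∃ i : ℕ, (i : ℤ) = p - s - c.R := ⟨(p - s - c.R).toNat, by omega⟩
    apply (hH2 i (by omega)).1
    intro j hj hj' _
    have h4 := hp ⟨j, by omega⟩
    have h5 : (⟨0 + j, hj'⟩ : Fin c.R) = ⟨j, by omega⟩ := Fin.ext (by simp)
    rw [h5, ← h4]
    unfold win
    congr 1
    push_cast
    omega
  · obtain ⟨i, hi⟩ : ∃ i : ℕ, (i : ℤ) = p - s - ρ := ⟨(p - s - ρ).toNat, by omega⟩
    apply (hH2 i (by omega)).2
    intro j hj hj' _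
    have h4 := hp ⟨c.R - ρ + j, hj'⟩
    rw [← h4]
    unfold win
    congr 1
    push_cast
    omega

end Pool.Agent.H34.PF
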