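import Pool.Agent.H93.PF.TargetsB

/-!
# SKR: recognition
-/

set_option autoImplicit false

open MeasureTheory Filter Topology Finset Pool.Agent.H93.PF

namespace Pool.Agent.H34.PF

theorem gg_nn (L k : ℕ) (hL : 0 < L) : 2 * gg L k < nn L (k + 1) := by
  cases k with
  | zero =>
    change 2 * (L + 1) < 14 * 16 ^ 0 * L
    rw [pow_zero]
    omega
  | succ k =>
    change 2 * (2 * 16 ^ (k + 1) * L) < 14 * 16 ^ (k + 1) * L
    have h1 : 0 < 16 ^ (k + 1) * L := by positivity
    have h2 : 2 * 16 ^ (k + 1) * L = 2 * (16 ^ (k + 1) * L) := by ring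
    have h3 : 14 * 16 ^ (k + 1) * L = 14 * (16 ^ (k + 1) * L) := by ring
    rw [h2, h3]
    omega

theorem pf_SKR (hSKD : T_SKD) : T_SKR := by
  intro L B c hS hL k s g₁ g₂ hs h1 h2
  have hd := (hSKD L B c hS hL (k + 1)).1
  have hgn := gg_nn L k hL
  have hle1 : g₁ ≤ gg L k := by
    obtain ⟨g, _, hg2, hg3⟩ := hS.next k s hs
    rw [h1.uniq hg3]
    exact hg2
  have hs1 : s + g₁ ∈ B k := h1.2.1
  have hs2 : s + g₁ + g₂ ∈ B k := h2.2.1
  have hle2 : g₂ ≤ gg L k := by
    obtain ⟨g, _, hg2, hg3⟩ := hS.next k (s + g₁) hs1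
    rw [h2.uniq hg3]
    exact hg2
  have hp1 := h1.1
  have hp2 := h2.1
  constructor
  · intro hsk
    have hn1 : s + g₁ ∉ B (k + 1) := by
      intro h
      have := hd s hsk _ h (by omega)
      omega
    have hn2 : s + g₁ + g₂ ∉ B (k + 1) := by
      intro h
      have := hd s hsk _ h (by omega)
      omega
    have h3 := hS.one k s g₁ hsk h1 hn1
    have h4 := hS.suc k (s + g₁) g₂ hs1 hn1 h2 hn2
    have h5 := hS.lev k (s + g₁) hs1 hn1
    have h6 := hS.lev k (s + g₁ + g₂) hs2 hn2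
    exact ⟨Prod.ext h5 h3, Prod.ext h6 (by rw [h4, h3])⟩
  · rintro ⟨h3, h4⟩
    by_contra hns
    have hn1 : s + g₁ ∉ B (k + 1) := by
      intro h
      have hn2 : s + g₁ + g₂ ∉ B (k + 1) := by
        intro h'
        have := hd _ h _ h' (by omega)
        omega
      have h5 := hS.one k (s + g₁) g₂ h h2 hn2
      rw [h4] at h5
      simp at h5
    have h5 := hS.suc k s g₁ hs hns h1 hn1
    have h6 := hS.pos k s hs hns
    rw [h3] at h5
    simp only at h5
    omega

end Pool.Agent.H34.PF
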