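import Pool.Agent.H93.PF.TargetsB

/-!
# TH2: numerics, two letters
-/

set_option autoImplicit false

open MeasureTheory Filter Topology Finset Pool.Agent.H93.PF

namespace Pool.Agent.H34.PF

theorem inv_pow_le {a b : ℕ} (h : a ≤ b) : ((19 / 10 : ℝ) ^ b)⁻¹ ≤ (10 / 19 : ℝ) ^ a := by
  have h1 : ((19 / 10 : ℝ) ^ b)⁻¹ = (10 / 19 : ℝ) ^ b := by
    rw [← inv_pow]
    norm_num
  rw [h1]
  exact pow_le_pow_of_le_one (by norm_num) (by norm_num) h

theorem geo (r : ℝ) (h0 : 0 ≤ r) (h1 : r < 1) (N : ℕ) : ∑ q ∈ Icc 1 N, r ^ q ≤ r / (1 - r) := by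
  have h2 : ∑ q ∈ Icc 1 N, r ^ q = r * ∑ q ∈ range N, r ^ q := by
    rw [mul_sum, range_eq_Ico, sum_Ico_eq_sum_range, Nat.sub_zero]
    have h3 : Icc 1 N = Ico 1 (N + 1) := by
      ext x
      simp only [mem_Icc, mem_Ico]
      omega
    rw [h3, sum_Ico_eq_sum_range, Nat.add_sub_cancel]
    refine sum_congr rfl fun i _ => ?_
    rw [zero_add, pow_add, pow_one]
  have h4 : ∑ q ∈ range N, r ^ q ≤ 1 / (1 - r) := by
    rw [geom_sum_eq h1.ne, ← neg_div_neg_eq, neg_sub, neg_sub]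
    apply div_le_div_of_nonneg_right _ (by linarith)
    linarith [pow_nonneg h0 N]
  rw [h2, div_eq_mul_one_div]
  exact mul_le_mul_of_nonneg_left h4 h0

theorem pairs (M : ℕ) : ∑ q ∈ Icc 1 (2 * M), (10 / 19 : ℝ) ^ ((3 * q + 2) / 2) =
    ((10 / 19 : ℝ) ^ 2 + (10 / 19 : ℝ) ^ 4) * ∑ j ∈ range M, ((10 / 19 : ℝ) ^ 3) ^ j := by
  induction M with
  | zero => simp
  | succ M ih =>
    have h1 : 2 * (M + 1) = 2 * M + 1 + 1 := by ring
    rw [h1, sum_Icc_succ_top (by omega), sum_Icc_succ_top (by omega), ih, sum_range_succ]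
    have h2 : (3 * (2 * M + 1) + 2) / 2 = 3 * M + 2 := by omega
    have h3 : (3 * (2 * M + 1 + 1) + 2) / 2 = 3 * M + 4 := by omega
    rw [h2, h3, ← pow_mul, pow_add, pow_add]
    ring

theorem pf_TH2 (hMMF : T_MMF) : T_TH2 := by
  intro β plus hβ
  have hm : ∀ q : ℕ, 0 < q → 5 * q < mm β plus q := by
    intro q hq
    have h1 := (hMMF β plus q 0 (by linarith) hq).2.1
    have hq' : (0 : ℝ) < q := by exact_mod_cast hq
    have h2 : ((5 * q : ℕ) : ℝ) < (mm β plus q : ℝ) := by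
      push_cast
      nlinarith
    exact_mod_cast h2
  refine ⟨?_, by norm_num, by norm_num, by norm_num, ?_, ?_⟩
  · intro q hq
    have := hm q hq
    omega
  · intro N
    have h1 : ∑ q ∈ Icc 1 N, ((19 / 10 : ℝ) ^ (mm β plus q - q - 1))⁻¹ ≤
        ∑ q ∈ Icc 1 N, ((10 / 19 : ℝ) ^ 4) ^ q := by
      refine sum_le_sum fun q hq => ?_
      rw [mem_Icc] at hq
      rw [← pow_mul]
      apply inv_pow_le
      have := hm q (by omega)
      omega
    have h2 := geo ((10 / 19 : ℝ) ^ 4) (by positivity) (by norm_num) N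
    have h3 : (10 / 19 : ℝ) ^ 4 / (1 - (10 / 19 : ℝ) ^ 4) ≤ 1 / 10 := by norm_num
    push_cast
    linarith
  · intro N
    have h1 : ∑ q ∈ Icc 1 N, ((19 / 10 : ℝ) ^ (pp (mm β plus) q - q))⁻¹ ≤
        ∑ q ∈ Icc 1 N, (10 / 19 : ℝ) ^ ((3 * q + 2) / 2) := by
      refine sum_le_sum fun q hq => ?_
      rw [mem_Icc] at hq
      apply inv_pow_le
      have := hm q (by omega)
      unfold pp
      omega
    have h2 : ∑ q ∈ Icc 1 N, (10 / 19 : ℝ) ^ ((3 * q + 2) / 2) ≤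
        ∑ q ∈ Icc 1 (2 * N), (10 / 19 : ℝ) ^ ((3 * q + 2) / 2) := by
      apply sum_le_sum_of_subset_of_nonneg
      · intro q hq
        rw [mem_Icc] at *
        omega
      · intro q _ _
        positivity
    rw [pairs] at h2
    have h3 : ∑ j ∈ range N, ((10 / 19 : ℝ) ^ 3) ^ j ≤ 1 / (1 - (10 / 19 : ℝ) ^ 3) := by
      rw [geom_sum_eq (by norm_num), ← neg_div_neg_eq, neg_sub, neg_sub]
      apply div_le_div_of_nonneg_right _ (by norm_num)
      have : (0 : ℝ) ≤ ((10 / 19 : ℝ) ^ 3) ^ N := by positivity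
      linarith
    have h4 : ((10 / 19 : ℝ) ^ 2 + (10 / 19 : ℝ) ^ 4) *
        ∑ j ∈ range N, ((10 / 19 : ℝ) ^ 3) ^ j ≤ ((10 / 19 : ℝ) ^ 2 + (10 / 19 : ℝ) ^ 4) *
        (1 / (1 - (10 / 19 : ℝ) ^ 3)) := mul_le_mul_of_nonneg_left h3 (by norm_num)
    have h5 : ((10 / 19 : ℝ) ^ 2 + (10 / 19 : ℝ) ^ 4) *
        (1 / (1 - (10 / 19 : ℝ) ^ 3)) ≤ 5 / 12 := by norm_num
    linarith

end Pool.Agent.H34.PF
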